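import Pool.Agent.P8H23.LV.Cvs

/-!
# The double cover at one level
-/

set_option autoImplicit false

open CategoryTheory AlgebraicGeometry MvPolynomial Pool.Agent.Y116.UV
open Pool.Agent.Z125.UN hiding ch
open Pool.Agent.P8H48.DC hiding ch
open Pool.Agent.P8H48.LV Pool.Agent.P8H23.LV

namespace Pool.Agent.P8H48.LV

variable {R : Type} [CommRing R] {P : ℕ → Sch R → Prop} (hP : Lv P) (n : ℕ)
  {A : Type} [CommRing A] [Algebra R A] [Algebra.FiniteType R A] (f : A)

include hP

open Classical in
/-- from the closed subscheme `V(f, h_a)` of the cover to `f = 0` -/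
lemma of_vfh (S : Finset R) (a b : R) (ha : a ∈ S)
    (hab : ∏ c ∈ S.erase a, (X 1 - C (algebraMap R A c) : MvPolynomial (Fin 2) A) =
      X 1 - C (algebraMap R A b))
    (h : P n (aff R (Cov S f ⧸ Ideal.span ({cf S f, Pool.Agent.P8H48.DC.ch S f a} : Set (Cov S f))))) :
    P n (aff R (A ⧸ Ideal.span {f})) := by
  set J : Ideal (MvPolynomial (Fin 2) A) := Ideal.span {(C f : MvPolynomial (Fin 2) A)} ⊔
      Ideal.span {(X 1 - C (algebraMap R A b) : MvPolynomial (Fin 2) A)} with hJ
  have hIJ : Ideal.span {eqn S f} ⊔ J = J := by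
    refine sup_eq_right.2 ?_
    rw [Ideal.span_singleton_le_iff_mem, eqn, ← Finset.mul_prod_erase S _ ha, hab]
    refine sub_mem ?_ ?_
    · exact Ideal.mul_mem_left _ _ (Ideal.mem_sup_right (Ideal.mem_span_singleton_self _))
    · exact Ideal.mul_mem_left _ _ (Ideal.mem_sup_left (Ideal.mem_span_singleton_self _))
  have hft : Algebra.FiniteType R (MvPolynomial (Fin 2) A) :=
    Algebra.FiniteType.trans (S := A) inferInstance inferInstance
  have hft2 : Algebra.FiniteType R (MvPolynomial (Fin 2) A ⧸ Ideal.span {eqn S f}) :=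
    Algebra.FiniteType.trans (S := MvPolynomial (Fin 2) A) inferInstance inferInstance
  have hft3 : Algebra.FiniteType R (MvPolynomial (Fin 2) A ⧸ J) :=
    Algebra.FiniteType.trans (S := MvPolynomial (Fin 2) A) inferInstance inferInstance
  have h3 : Ideal.map (Ideal.Quotient.mkₐ R (Ideal.span {eqn S f})) J =
      Ideal.span ({cf S f, Pool.Agent.P8H48.DC.ch S f a} : Set (Cov S f)) := by
    have h4 : Pool.Agent.P8H48.DC.ch S f a = Ideal.Quotient.mk _ (X 1 - C (algebraMap R A b)) := by
      rw [← hab]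
      rfl
    rw [h4, hJ, Ideal.map_sup, Ideal.map_span, Ideal.map_span, Set.image_singleton,
      Set.image_singleton, Ideal.span_insert]
    rfl
  rw [← h3] at h
  have hft4 : Algebra.FiniteType R ((MvPolynomial (Fin 2) A ⧸ Ideal.span {eqn S f}) ⧸
      Ideal.map (Ideal.Quotient.mkₐ R (Ideal.span {eqn S f})) J) :=
    Algebra.FiniteType.trans (S := MvPolynomial (Fin 2) A ⧸ Ideal.span {eqn S f})
      inferInstance inferInstance
  have h5 := l_iso hP n (DoubleQuot.quotQuotEquivQuotSupₐ R (Ideal.span {eqn S f}) J) h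
  rw [hIJ] at h5
  have hftA : Algebra.FiniteType R (A ⧸ Ideal.span {f}) :=
    Algebra.FiniteType.trans (S := A) inferInstance inferInstance
  exact (l_poly hP n _ 1).2
    (l_iso hP n ((Pool.Agent.P8H62.DC.lnE f (algebraMap R A b)).restrictScalars R).symm h5)

omit hP [Algebra.FiniteType R A] in
/-- **CV2.** -/
theorem cv2 : S_CV2 := by
  classical
  intro R _ P hP n A _ _ _ S f hU h2 hA hA1
  obtain ⟨a, b, hab, rfl⟩ := Finset.card_eq_two.mp h2
  have ha : a ∈ ({a, b} : Finset R) := Finset.mem_insert_self _ _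
  obtain ⟨φ, ho, hr⟩ := Pool.Agent.P8H48.DC.Opn.opn R A {a, b} f a ha hU
  obtain ⟨i, j, ht⟩ := trip _ φ ho hr
  have hft : Algebra.FiniteType R (Cov ({a, b} : Finset R) f) :=
    Algebra.FiniteType.trans (S := A) inferInstance inferInstance
  constructor
  · intro hf
    exact hP.total n i j (ft_aff False) ht (l_vfh hP n f {a, b} a ha hU hf) ((l_poly hP n A 1).1 hA)
  · intro hC
    have hW := hP.closed n i j (ft_aff False) ht hC ((l_poly hP (n + 1) A 1).1 hA1)
    have he : ({a, b} : Finset R).erase a = {b} := by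
      rw [Finset.erase_insert]
      rwa [Finset.mem_singleton]
    refine of_vfh hP n f {a, b} a b ha ?_ hW
    rw [he, Finset.prod_singleton]

end Pool.Agent.P8H48.LV
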