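import Pool.Agent.P8H48.LV.Fin
import Pool.Agent.P8H88.LV.Pol
import Pool.Agent.P8H23.LV.Cvs
import Pool.Agent.P8H66.LV.Shf
import Pool.Agent.P8H93.LV.Inj
import Pool.Agent.P8H4.LV.Pti
import Pool.Agent.P8H76.LV.Pta
import Pool.Agent.P8H80.LV.Ptb
import Pool.Agent.P8H80.LV.Rgt
import Pool.Agent.P8H54.LV.Twd
import Pool.Agent.P8H48.LV.Cv2
import Pool.Agent.P8H71.LV.Dbl
import Pool.Agent.P8H71.LV.Bir

/-!
# One level: all packages
-/

set_option autoImplicit false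

open CategoryTheory AlgebraicGeometry Pool.Agent.Y116.UV Pool.Agent.Z125.UN Pool.Agent.R904.TR
open Pool.Agent.R904.CU Pool.Agent.P8H48.DC Pool.Agent.P8H48.FR

namespace Pool.Agent.P8H48.LV

theorem pk : Pk where
  pol := Pool.Agent.P8H88.LV.pol
  noe := Pool.Agent.P8H4.LV.noe
  cv2 := cv2
  cvs := Pool.Agent.P8H23.LV.cvs
  shf := Pool.Agent.P8H66.LV.shf Pool.Agent.P8H88.LV.pol
  inj := Pool.Agent.P8H93.LV.inj
  bir := Pool.Agent.P8H71.LV.bir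
  pta := Pool.Agent.P8H76.LV.pta Pool.Agent.P8H88.LV.pol Pool.Agent.P8H4.LV.pti
  ptb := Pool.Agent.P8H80.LV.ptb
  dbl := Pool.Agent.P8H71.LV.dbl
  twd := Pool.Agent.P8H54.LV.twd
  rgt := Pool.Agent.P8H80.LV.rgt

theorem all (K : KThy) :
    (∀ n : ℕ, List.TFAE [BassN K n, AllN K n, ∀ N, TwoN K n ℤ N, AffTwoN K n ℤ,
      ∀ N, CovN K n ({0, 1} : Finset ℤ) N]) ∧
    (∀ (k : Type) [Field k] [Finite k] (S : Finset k), S.card = 2 → ∀ n d : ℕ,
      List.TFAE [SmoothN K n k d, DimN K n k d, TwoN K n k (d + 1), CovN K n S (d + 1)]) ∧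
    (Sums K → ∀ (k : Type) [Field k] [Finite k] (S : Finset k), 1 < S.card → ∀ n d : ℕ,
      (DimN K n k d ↔ CovN K n S (d + 1))) ∧
    (∀ (k : Type) [Field k] [Finite k] (n : ℕ), DimN K n k 1) ∧
    ∀ (R : Type) [CommRing R] [Algebra.FiniteType ℤ R], K.Fin (sp R) → ∀ (N : ℕ)
      (I : Ideal (MvPolynomial (Fin N) R)), ∃ X : Sch R, IsTwo N X ∧ Smooth X.hom ∧
      ∀ n, (AddGroup.FG (K.G n X.left) ↔ AddGroup.FG (K.G n (sp (MvPolynomial (Fin N) R ⧸ I)))) :=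
  ⟨int_one K pk, fun k _ _ S hS n d => field_one K pk k S hS n d,
    fun hK k _ _ S hS n d => field_one_cov K pk hK k S hS n d, fun k _ _ n => affD_one K k n,
    fun R _ _ h0 N I => doubled K pk R h0 N I⟩

end Pool.Agent.P8H48.LV
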