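import Pool.Agent.P8H48.LV.Stm

/-!
# The empty scheme
-/

set_option autoImplicit false

open CategoryTheory AlgebraicGeometry Pool.Agent.Y116.UV Pool.Agent.Z125.UN

namespace Pool.Agent.P8H48.LV

open MvPolynomial

theorem emp : S_EMP := by
  intro R _ P hP n B _ _ hB
  have h1 : P n (aff R R) := hP.base n
  have h2 : P (n + 1) (aff R (Localization.Away (1 : R))) := by
    have e := IsLocalization.atUnits R (Submonoid.powers (1 : R)) (S := Localization.Away (1 : R))
      (by rintro _ ⟨n, rfl⟩; simp)
    exact hP.iso (n + 1) (ft_aff False) ⟨(affIso e).symm⟩ (hP.base (n + 1))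
  have h3 : P n (aff R (R ⧸ Ideal.span {(1 : R)})) :=
    hP.closed n _ _ (ft_aff False) (triple_away (1 : R)) h1 h2
  have h4 : Subsingleton (R ⧸ Ideal.span {(1 : R)}) :=
    Ideal.Quotient.subsingleton_iff.mpr Ideal.span_singleton_one
  let e : (R ⧸ Ideal.span {(1 : R)}) ≃ₐ[R] B :=
    AlgEquiv.ofRingEquiv (f := { toFun := fun _ => 0
                                 invFun := fun _ => 0
                                 left_inv := fun _ => Subsingleton.elim _ _
                                 right_inv := fun _ => Subsingleton.elim _ _
                                 map_mul' := fun _ _ => Subsingleton.elim _ _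
                                 map_add' := fun _ _ => Subsingleton.elim _ _ })
      (fun _ => Subsingleton.elim _ _)
  exact hP.iso n (ft_aff False) ⟨(affIso e).symm⟩ h3

end Pool.Agent.P8H48.LV
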