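import Pool.Agent.P8H48.LV.Stm
import Pool.Agent.R904.TR.Main

/-!
# The groups `K'_n` satisfy the formal properties
-/

set_option autoImplicit false

open CategoryTheory AlgebraicGeometry Pool.Agent.Y116.UV Pool.Agent.Z125.UN Pool.Agent.R904.TR
open Pool.Agent.R904.CU Pool.Agent.P8H48.DC

namespace Pool.Agent.P8H48.LV

open MvPolynomial

variable {R : Type} [CommRing R] [Algebra.FiniteType ℤ R]

theorem lvk (K : KThy) (h0 : K.Fin (sp R)) : Lv fun (n : ℕ) (X : Sch R) => AddGroup.FG (K.G n X.left) where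
  iso n {X Y} _ e hX := by
    obtain ⟨e⟩ := e
    exact fg_equiv (K.iso n _ _ ((Over.forget _).mapIso e)) hX
  total n {Z X U} i j h ht hZ hU := by
    obtain ⟨a, b, d, h1, h2, h3, -⟩ := K.localization X.left Z.left U.left _ i.left j.left
      (ft_int h) ht.closed ht.opened ht.compl
    exact fg_exact (a n) (b n) (h1 n) hZ hU
  opened0 {Z X U} i j h ht hX := by
    obtain ⟨a, b, d, h1, h2, h3, h4⟩ := K.localization X.left Z.left U.left _ i.left j.left
      (ft_int h) ht.closed ht.opened ht.compl
    have := hX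
    exact AddGroup.fg_of_surjective h4
  opened n {Z X U} i j h ht hX hZ := by
    obtain ⟨a, b, d, h1, h2, h3, h4⟩ := K.localization X.left Z.left U.left _ i.left j.left
      (ft_int h) ht.closed ht.opened ht.compl
    exact fg_exact (b (n + 1)) (d n) (h2 n) hX hZ
  closed n {Z X U} i j h ht hX hU := by
    obtain ⟨a, b, d, h1, h2, h3, -⟩ := K.localization X.left Z.left U.left _ i.left j.left
      (ft_int h) ht.closed ht.opened ht.compl
    exact fg_exact (d n) (a n) (h3 n) hU hX
  base n := h0 n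
  bundle n A _ _ _ m f U j hj hr := by
    have := ft_trans (R := R) A
    obtain ⟨e⟩ := K.bundle n A m f U.left j.left ⟨hj, hr⟩
    exact ⟨fun h => fg_equiv ⟨e⟩ h, fun h => fg_equiv ⟨e.symm⟩ h⟩
  torus n A _ _ _ h := by
    have := ft_trans (R := R) A
    obtain ⟨e⟩ := K.laurent n A
    have h1 : AddGroup.FG (K.G (n + 1) (Spec (.of (LaurentPolynomial A)))) := h
    refine AddGroup.fg_of_surjective (f := (AddMonoidHom.snd (K.G (n + 1) (Spec (.of A)))
      (K.G n (Spec (.of A)))).comp e.toAddMonoidHom) (fun y => ⟨e.symm (0, y), ?_⟩)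
    change (e (e.symm (0, y))).2 = y
    rw [e.apply_symm_apply]

end Pool.Agent.P8H48.LV
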