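import Pool.Agent.P8H48.LV.Main
import Pool.Agent.P8H48.LV.Lvk
import Pool.Agent.P8H48.DC.Two

/-!
# Bass's conjecture at one level
-/

set_option autoImplicit false

open CategoryTheory AlgebraicGeometry Pool.Agent.Y116.UV Pool.Agent.Z125.UN Pool.Agent.R904.TR
open Pool.Agent.R904.CU Pool.Agent.P8H48.DC Pool.Agent.P8H48.FR

namespace Pool.Agent.P8H48.LV

open MvPolynomial

section defs

variable (K : KThy) (n : ℕ)

/-- Bass's conjecture for the single group `K'_n`: it is finitely generated for all regular schemes of finite type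
over `ℤ`. -/
def BassN : Prop := ∀ (X : Scheme.{0}) (f : X ⟶ Spec (.of ℤ)), FinType ℤ X f → IsRegularScheme X →
  AddGroup.FG (K.G n X)

/-- `K'_n` is finitely generated for all schemes of finite type over `ℤ`. -/
def AllN : Prop := ∀ (X : Scheme.{0}) (f : X ⟶ Spec (.of ℤ)), FinType ℤ X f → AddGroup.FG (K.G n X)

/-- `X` is of finite type over `R` and the union of two open subschemes which are isomorphic over `R` to the
affine space of dimension `N`. -/
def IsTwo {R : Type} [CommRing R] (N : ℕ) (X : Sch R) : Prop :=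
  FT False X ∧ ∃ j1 j2 : aff R (MvPolynomial (Fin N) R) ⟶ X, IsOpenImmersion j1.left ∧
    IsOpenImmersion j2.left ∧ Set.range j1.left ∪ Set.range j2.left = Set.univ

/-- `K'_n` is finitely generated for all unions of two open affine spaces of dimension `N` over `R`. -/
def TwoN (R : Type) [CommRing R] (N : ℕ) : Prop := ∀ X : Sch R, IsTwo N X → AddGroup.FG (K.G n X.left)

/-- `K'_n` is finitely generated for all smooth affine schemes over `R` which are the union of two open affine spaces. -/
def AffTwoN (R : Type) [CommRing R] : Prop :=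
  ∀ (B : Type) [CommRing B] [Algebra R B] (N : ℕ), Algebra.Smooth R B →
    UnionOf R B (MvPolynomial (Fin N) R) (Fin 2) → AddGroup.FG (K.G n (sp B))

/-- `K'_n` is finitely generated for the covers `∏_{c ∈ S} (z - c) = t f(x_1, …, x_N)`, for all polynomials `f`. -/
def CovN {R : Type} [CommRing R] (S : Finset R) (N : ℕ) : Prop :=
  ∀ f : MvPolynomial (Fin N) R, AddGroup.FG (K.G n (sp (Cov S f)))

/-- `K'_n` is finitely generated for all smooth separated schemes of finite type over `k` of dimension at most `d`. -/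
def SmoothN (k : Type) [Field k] (d : ℕ) : Prop :=
  ∀ X : Sch k, FT True X → Smooth X.hom → topologicalKrullDim X.left ≤ d → AddGroup.FG (K.G n X.left)

/-- `K'_n` is finitely generated for all schemes of finite type over `k` of dimension at most `d`. -/
def DimN (k : Type) [Field k] (d : ℕ) : Prop :=
  ∀ X : Sch k, FT False X → topologicalKrullDim X.left ≤ d → AddGroup.FG (K.G n X.left)

/-- `K'_n` of the disjoint union of two affine schemes is the direct sum. -/
def Sums : Prop := ∀ (n : ℕ) (B : Type) [CommRing B] [Algebra.FiniteType ℤ B] (e : B), IsIdempotentElem e →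
  Nonempty (K.G n (sp B) ≃+ K.G n (sp (B ⧸ Ideal.span {e})) × K.G n (sp (B ⧸ Ideal.span {1 - e})))

end defs

variable (K : KThy)

theorem summ_of_sums (hK : Sums K) (R : Type) [CommRing R] [Algebra.FiniteType ℤ R] :
    Summ fun (n : ℕ) (X : Sch R) => AddGroup.FG (K.G n X.left) := by
  intro n B _ _ _ e he hB
  have : Algebra.FiniteType ℤ B := Algebra.FiniteType.trans (S := R) inferInstance inferInstance
  obtain ⟨g⟩ := hK n B e he
  have h1 : AddGroup.FG (K.G n (sp B)) := hB
  refine AddGroup.fg_of_surjective (f := (AddMonoidHom.fst (K.G n (sp (B ⧸ Ideal.span {e})))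
    (K.G n (sp (B ⧸ Ideal.span {1 - e})))).comp g.toAddMonoidHom) (fun y => ⟨g.symm (y, 0), ?_⟩)
  change (g (g.symm (y, 0))).1 = y
  rw [g.apply_symm_apply]

theorem affD_one (k : Type) [Field k] [Finite k] (n : ℕ) :
    DimN K n k 1 := by
  intro X hX hd
  have : Algebra.FiniteType ℤ k := inferInstance
  exact K.curves n X.left _ (ft_int hX) (by exact_mod_cast hd)

theorem two_iff (n : ℕ) (R : Type) [CommRing R] (N : ℕ) : TwoN K n R N ↔
    TwoP (fun (n : ℕ) (X : Sch R) => AddGroup.FG (K.G n X.left)) n N :=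
  ⟨fun h X j1 j2 hX h1 h2 hu => h X ⟨hX, j1, j2, h1, h2, hu⟩,
    fun h X hX => by
      obtain ⟨hX, j1, j2, h1, h2, hu⟩ := hX
      exact h X j1 j2 hX h1 h2 hu⟩

theorem int_one (H : Pk) (n : ℕ) :
    List.TFAE [BassN K n, AllN K n, ∀ N, TwoN K n ℤ N, AffTwoN K n ℤ, ∀ N, CovN K n ({0, 1} : Finset ℤ) N] := by
  have hP := lvk (R := ℤ) K (fin_int K)
  tfae_have 2 → 1 := fun h X f hf _ => h X f hf
  tfae_have 1 → 3 := by
    intro h N X hX
    obtain ⟨hX, j1, j2, h1, h2, hu⟩ := hX
    exact h X.left X.hom ⟨hX.1, hX.2⟩ ((H.rgt ℤ _ X j1 j2 h1 h2 hu).1 inferInstance)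
  tfae_have 3 → 2 := by
    intro h X f hf
    have hX : FT False (Over.mk f : Sch ℤ) := ⟨hf.1, hf.2, fun h => h.elim⟩
    exact all_of_aff hP n (aff_of_quot hP n fun N I => quot_of_two H hP n N
      ((two_iff K n ℤ N).mp (h N)) I) (Over.mk f) hX
  tfae_have 1 → 4 := by
    intro h B _ _ N hsm hB
    have hft : Algebra.FiniteType ℤ B := inferInstance
    exact h _ (aff ℤ B).hom
      ⟨(ft_aff (R := ℤ) (A := B) False).locallyOfFiniteType,
        (ft_aff (R := ℤ) (A := B) False).quasiCompact⟩
      (reg_union ℤ B (MvPolynomial (Fin N) ℤ) (Fin 2) hB)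
  tfae_have 4 → 5 := by
    intro h N f
    obtain ⟨M, hM⟩ := two_cov ℤ (Fin N) f {0, 1} unitDiff_int (by decide)
    have hsm : Algebra.Smooth ℤ (MvPolynomial (Fin N) ℤ) := ⟨inferInstance, inferInstance⟩
    exact h _ M (Pool.Agent.P8H48.DC.pk.smo ℤ _ {0, 1} f unitDiff_int) hM
  tfae_have 5 → 2 := by
    intro h X f hf
    have hX : FT False (Over.mk f : Sch ℤ) := ⟨hf.1, hf.2, fun h => h.elim⟩
    exact all_of_aff hP n (aff_of_hyp H hP n fun N =>
      (hyp_iff_cov2 H hP {0, 1} unitDiff_int (by decide) n N).mpr (h N)) (Over.mk f) hX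
  tfae_finish

theorem field_one (H : Pk) (k : Type) [Field k] [Finite k] (S : Finset k) (hc : S.card = 2) (n d : ℕ) :
    List.TFAE [SmoothN K n k d, DimN K n k d, TwoN K n k (d + 1), CovN K n S (d + 1)] := by
  have hP := lvk (R := k) K (fin_field K k)
  have h0 : ∀ n, AffD (fun (n : ℕ) (X : Sch k) => AddGroup.FG (K.G n X.left)) n 0 := by
    intro n B _ _ _ hB
    refine affD_one K k n _ (ft_aff False) ?_
    rw [topDim_aff]
    exact hB.trans (by norm_num)
  have h := field_tfae H hP h0 S (unitDiff_field k _) hc n d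
  tfae_have 1 ↔ 2 := h.out 0 1
  tfae_have 2 ↔ 3 := (h.out 1 2).trans (two_iff K n k (d + 1)).symm
  tfae_have 2 ↔ 4 := h.out 1 3
  tfae_finish

theorem field_one_cov (H : Pk) (hK : Sums K) (k : Type) [Field k] [Finite k] (S : Finset k)
    (h2 : 1 < S.card) (n d : ℕ) : DimN K n k d ↔ CovN K n S (d + 1) := by
  have hP := lvk (R := k) K (fin_field K k)
  have h0 : ∀ n, AffD (fun (n : ℕ) (X : Sch k) => AddGroup.FG (K.G n X.left)) n 0 := by
    intro n B _ _ _ hB
    refine affD_one K k n _ (ft_aff False) ?_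
    rw [topDim_aff]
    exact hB.trans (by norm_num)
  exact field_cov H hP (summ_of_sums K hK k) h0 S (unitDiff_field k S) h2 n d

/-- every affine scheme of finite type has the same `K'`-groups, up to finitely generated groups, as a smooth
scheme which is the union of two affine spaces -/
theorem doubled (H : Pk) (R : Type) [CommRing R] [Algebra.FiniteType ℤ R] (h0 : K.Fin (sp R)) (N : ℕ)
    (I : Ideal (MvPolynomial (Fin N) R)) : ∃ X : Sch R, IsTwo N X ∧ Smooth X.hom ∧
      ∀ n, (AddGroup.FG (K.G n X.left) ↔ AddGroup.FG (K.G n (sp (MvPolynomial (Fin N) R ⧸ I)))) := by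
  have hN : IsNoetherianRing R := Algebra.FiniteType.isNoetherianRing ℤ R
  have hP := lvk (R := R) K h0
  obtain ⟨X, j1, j2, i, hX, ht, hj2, hu⟩ := H.dbl R (MvPolynomial (Fin N) R) I
  have hsm : Algebra.Smooth R (MvPolynomial (Fin N) R) := ⟨inferInstance, inferInstance⟩
  refine ⟨X, ⟨hX, j1, j2, ht.opened, hj2, hu⟩, (H.rgt R _ X j1 j2 ht.opened hj2 hu).2 hsm, fun n =>
    ⟨fun h => hP.closed n i j1 hX ht h (space H hP (n + 1) N),
      fun h => hP.total n i j1 hX ht h (space H hP n N)⟩⟩

end Pool.Agent.P8H48.LV
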