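import Pool.Agent.P8H48.LV.Emp
import Pool.Agent.Z125.UN.Dim2
import Pool.Agent.P8H4.LV.Noe

/-!
# One level: the abstract equivalences
-/

set_option autoImplicit false

open CategoryTheory AlgebraicGeometry Pool.Agent.Y116.UV Pool.Agent.Z125.UN Pool.Agent.R904.TR
open Pool.Agent.R904.CU Pool.Agent.P8H48.DC

namespace Pool.Agent.P8H48.LV

open MvPolynomial

/-- the packages -/
structure Pk : Prop where
  pol : S_POL
  noe : Pool.Agent.P8H4.LV.S_NOE'
  cv2 : S_CV2
  cvs : S_CVS
  shf : S_SHF
  inj : S_INJ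
  bir : S_BIR
  pta : S_PTA
  ptb : S_PTB
  dbl : S_DBL
  twd : S_TWD
  rgt : S_RGT

section general

variable {R : Type} [CommRing R] {P : ℕ → Sch R → Prop}

/-- all affine schemes of finite type -/
def AffP (P : ℕ → Sch R → Prop) (n : ℕ) : Prop :=
  ∀ (A : Type) [CommRing A] [Algebra R A] [Algebra.FiniteType R A], P n (aff R A)

/-- all schemes of finite type which are the union of two open affine spaces of dimension `N` -/
def TwoP (P : ℕ → Sch R → Prop) (n N : ℕ) : Prop :=
  ∀ (X : Sch R) (j1 j2 : aff R (MvPolynomial (Fin N) R) ⟶ X), FT False X → IsOpenImmersion j1.left →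
    IsOpenImmersion j2.left → Set.range j1.left ∪ Set.range j2.left = Set.univ → P n X

/-- the covers of affine spaces -/
def CovP (P : ℕ → Sch R → Prop) (S : Finset R) (n N : ℕ) : Prop :=
  ∀ f : MvPolynomial (Fin N) R, P n (aff R (Cov S f))

lemma space (H : Pk) (hP : Lv P) (n N : ℕ) : P n (aff R (MvPolynomial (Fin N) R)) :=
  (H.pol R P hP n R (Fin N)).mp (hP.base n)

/-- from affine schemes to all schemes -/
theorem all_of_aff (hP : Lv P) (n : ℕ) (h : AffP P n) (X : Sch R) (hX : FT False X) : P n X :=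
  of_affine' (fun hX e h => hP.iso n hX e h) (fun i j hX ht h1 h2 => hP.total n i j hX ht h1 h2)
    (fun A _ _ _ => h A) X hX

/-- from two affine spaces to closed subschemes -/
theorem quot_of_two (H : Pk) [IsNoetherianRing R] (hP : Lv P) (n N : ℕ) (h : TwoP P n N)
    (I : Ideal (MvPolynomial (Fin N) R)) : P n (aff R (MvPolynomial (Fin N) R ⧸ I)) := by
  obtain ⟨X, j1, j2, i, hX, ht, hj2, hu⟩ := H.dbl R (MvPolynomial (Fin N) R) I
  exact hP.closed n i j1 hX ht (h X j1 j2 hX ht.opened hj2 hu) (space H hP (n + 1) N)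

/-- all affine schemes of finite type are closed subschemes of affine spaces -/
theorem aff_of_quot (hP : Lv P) (n : ℕ)
    (h : ∀ (N : ℕ) (I : Ideal (MvPolynomial (Fin N) R)), P n (aff R (MvPolynomial (Fin N) R ⧸ I))) :
    AffP P n := by
  intro A _ _ _
  obtain ⟨N, f, hf⟩ := Algebra.FiniteType.iff_quotient_mvPolynomial''.mp
    (inferInstance : Algebra.FiniteType R A)
  let e : (MvPolynomial (Fin N) R ⧸ RingHom.ker f) ≃ₐ[R] A :=
    Ideal.quotientKerAlgEquivOfSurjective hf
  exact hP.iso n (ft_aff False) ⟨(affIso e).symm⟩ (h N (RingHom.ker f))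

/-- hypersurfaces and covers -/
theorem hyp_iff_cov2 (H : Pk) (hP : Lv P) (S : Finset R) (hU : UnitDiff S) (h2 : S.card = 2) (n N : ℕ) :
    HypP P n N ↔ CovP P S n N :=
  forall_congr' fun f => H.cv2 R P hP n (MvPolynomial (Fin N) R) S f hU h2 (space H hP n N)
    (space H hP (n + 1) N)

theorem hyp_iff_cov (H : Pk) (hP : Lv P) (hs : Summ P) (S : Finset R) (hU : UnitDiff S) (h2 : 1 < S.card)
    (n N : ℕ) : HypP P n N ↔ CovP P S n N :=
  forall_congr' fun f => H.cvs R P hP hs n (MvPolynomial (Fin N) R) S f hU h2 (space H hP n N)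
    (space H hP (n + 1) N)

/-- from hypersurfaces to everything -/
theorem aff_of_hyp (H : Pk) [IsNoetherianRing R] (hP : Lv P) (n : ℕ) (h : ∀ N, HypP P n N) : AffP P n :=
  aff_of_quot hP n fun N I => H.ptb H.pta R P hP H.pol n h N I

end general

section field

variable {k : Type} [Field k] {P : ℕ → Sch k → Prop}

/-- all affine schemes of dimension at most `d` -/
def AffD (P : ℕ → Sch k → Prop) (n d : ℕ) : Prop :=
  ∀ (B : Type) [CommRing B] [Algebra k B] [Algebra.FiniteType k B], ringKrullDim B ≤ d → P n (aff k B)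

/-- all schemes of finite type of dimension at most `d` -/
def DimP (P : ℕ → Sch k → Prop) (n d : ℕ) : Prop :=
  ∀ X : Sch k, FT False X → topologicalKrullDim X.left ≤ d → P n X

/-- all smooth separated schemes of finite type of dimension at most `d` -/
def SmP (P : ℕ → Sch k → Prop) (n d : ℕ) : Prop :=
  ∀ X : Sch k, FT True X → Smooth X.hom → topologicalKrullDim X.left ≤ d → P n X

theorem dim_of_aff (hP : Lv P) (n d : ℕ) (h : AffD P n d) : DimP P n d := by
  intro X hX hn
  refine of_affine' (P := fun X => topologicalKrullDim X.left ≤ d → P n X) (sep := False) ?_ ?_ ?_ X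
    hX hn
  · intro X Y hX e hPX hY
    refine hP.iso n hX e (hPX ?_)
    obtain ⟨e⟩ := e
    let f := (Over.forget _).mapIso e
    exact (Topology.IsInducing.topologicalKrullDim_le
      (Scheme.homeoOfIso f).isInducing).trans hY
  · intro Z X U i j hX ht hZ hU hn
    refine hP.total n i j hX ht (hZ ?_) (hU ?_)
    · have h1 := (have := ht.closed; i.left.isClosedEmbedding.isInducing)
      exact h1.topologicalKrullDim_le.trans hn
    · have h1 := (have := ht.opened; j.left.isOpenEmbedding.isInducing)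
      exact h1.topologicalKrullDim_le.trans hn
  · intro A _ _ _ hA
    rw [topDim_aff] at hA
    exact h A hA

theorem aff_of_dim (n d : ℕ) (h : DimP P n d) : AffD P n d := by
  intro B _ _ _ hB
  refine h _ (ft_aff False) ?_
  rw [topDim_aff]
  exact hB

theorem noeP (H : Pk) (hP : Lv P) (n : ℕ) (d : ℕ)
    (h : ∀ (B : Type) [CommRing B] [IsDomain B] [Algebra k B] [Algebra.FiniteType k B],
      ringKrullDim B ≤ d → ∃ w : B, w ≠ 0 ∧ P n (aff k (Localization.Away w))) : AffD P n d := by
  intro A _ _ _ hA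
  refine H.noe k (P n) (fun hX e h => hP.iso n hX e h)
    (fun i j hX ht h1 h2 => hP.total n i j hX ht h1 h2)
    (fun B _ _ hB => emp k P hP n B hB) A fun p hp v hv => ?_
  have h1 : IsDomain (Localization.Away v) :=
    IsLocalization.isDomain_localization (powers_le_nonZeroDivisors_of_noZeroDivisors hv)
  have h2 : Algebra.FiniteType k (Localization.Away v) :=
    Algebra.FiniteType.trans (S := A ⧸ p) inferInstance inferInstance
  exact h (Localization.Away v) ((dim_away v).trans ((ringKrullDim_quotient_le p).trans hA))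

theorem aff_of_smooth (H : Pk) [PerfectField k] (hP : Lv P) (n d : ℕ) (h : SmP P n d) : AffD P n d := by
  refine noeP H hP n d fun B _ _ _ _ hB => ?_
  obtain ⟨w, hw, hs⟩ := exists_smooth (k := k) B
  refine ⟨w, hw, h _ (ft_aff True) (smooth_aff hs) ?_⟩
  rw [topDim_aff]
  exact (dim_away w).trans hB

theorem aff_of_hypD (H : Pk) [PerfectField k] (hP : Lv P)
    (h1 : ∀ n, AffD P n 0) : ∀ d n : ℕ, HypP P n (d + 1) → AffD P n d := by
  intro d
  induction d with
  | zero => exact fun n _ => h1 n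
  | succ d ih =>
    intro n hn
    have h2 : AffD P n d := ih n ((H.shf k P hP n (d + 1)).1 hn)
    have h3 : ∀ m : ℕ, n = m + 1 → AffD P m d := by
      rintro m rfl
      exact ih m ((H.shf k P hP m (d + 1)).2 hn)
    exact noeP H hP n (d + 1) fun B _ _ _ _ hB => H.bir H.inj k P hP n d hn h2 h3 B hB

theorem hyp_of_affD (H : Pk) (hP : Lv P) (n d : ℕ) (h : AffD P n d) : HypP P n (d + 1) := by
  intro f
  by_cases hf : f = 0
  · subst hf
    have e : (MvPolynomial (Fin (d + 1)) k ⧸ Ideal.span {(0 : MvPolynomial (Fin (d + 1)) k)}) ≃ₐ[k]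
        MvPolynomial (Fin (d + 1)) k :=
      (Ideal.quotientEquivAlgOfEq k (by simp)).trans (AlgEquiv.quotientBot k _)
    exact hP.iso n (ft_aff False) ⟨affIso e⟩ (space H hP n (d + 1))
  · exact h _ (dim_quot _ (by simpa using hf))

/-- the equivalences over a finite field -/
theorem field_tfae (H : Pk) [PerfectField k] (hP : Lv P) (h1 : ∀ n, AffD P n 0) (S : Finset k)
    (hU : UnitDiff S) (h2 : S.card = 2) (n d : ℕ) :
    List.TFAE [SmP P n d, DimP P n d, TwoP P n (d + 1), CovP P S n (d + 1)] := by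
  tfae_have 2 → 1 := fun h X hX _ hn => h X ⟨hX.1, hX.2, fun h => h.elim⟩ hn
  tfae_have 1 → 2 := fun h => dim_of_aff hP n d (aff_of_smooth H hP n d h)
  tfae_have 2 → 3 := fun h X j1 j2 hX h1 h2 hu =>
    H.twd k P hP H.pol n d (aff_of_dim n d h) X j1 j2 hX h1 h2 hu
  tfae_have 3 → 2 := fun h => dim_of_aff hP n d
    (aff_of_hypD H hP h1 d n fun f => quot_of_two H hP n (d + 1) h _)
  tfae_have 2 → 4 := fun h =>
    (hyp_iff_cov2 H hP S hU h2 n (d + 1)).mp (hyp_of_affD H hP n d (aff_of_dim n d h))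
  tfae_have 4 → 2 := fun h => dim_of_aff hP n d
    (aff_of_hypD H hP h1 d n ((hyp_iff_cov2 H hP S hU h2 n (d + 1)).mpr h))
  tfae_finish

theorem field_cov (H : Pk) [PerfectField k] (hP : Lv P) (hs : Summ P) (h1 : ∀ n, AffD P n 0) (S : Finset k)
    (hU : UnitDiff S) (h2 : 1 < S.card) (n d : ℕ) : DimP P n d ↔ CovP P S n (d + 1) :=
  ⟨fun h => (hyp_iff_cov H hP hs S hU h2 n (d + 1)).mp (hyp_of_affD H hP n d (aff_of_dim n d h)),
    fun h => dim_of_aff hP n d
      (aff_of_hypD H hP h1 d n ((hyp_iff_cov H hP hs S hU h2 n (d + 1)).mpr h))⟩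

end field

end Pool.Agent.P8H48.LV
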