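import Pool.Agent.P8H48.DC.Stm

/-!
# Bass's conjecture at one level `n`: exact statements of the packages

Project LV (MP_e17fa799_al). For a fixed `n` (and over a finite field for a fixed dimension `d`) the finite generation of the
single group `K'_n` for all regular schemes (of dimension at most `d`) is equivalent to the one for the schemes which are the
union of two open affine spaces (of dimension `d + 1`), and to the one for the smooth affine double covers
`z ^ 2 - z = t f(x)` (of dimension `d + 2`), `f` any polynomial (in `d + 1` variables).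

`P n X` is the property that `K'_n(X)` is finitely generated; `Lv P` lists what is used: everything follows from the
localization sequence `K'_{n+1}(X) → K'_{n+1}(U) → K'_n(Z) → K'_n(X) → K'_n(U)`, homotopy invariance
for Jouanolou's bundles and the fundamental theorem. No other property (in particular no splitting of disjoint unions)
may be used.
-/

set_option autoImplicit false

open CategoryTheory AlgebraicGeometry Pool.Agent.Y116.UV Pool.Agent.Z125.UN Pool.Agent.R904.TR
open Pool.Agent.R904.CU Pool.Agent.P8H48.DC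

namespace Pool.Agent.P8H48.LV

open MvPolynomial

/-- the formal properties of finite generation of `K'_n`, for all `n` -/
structure Lv {R : Type} [CommRing R] (P : ℕ → Sch R → Prop) : Prop where
  iso : ∀ (n : ℕ) {X Y : Sch R}, FT False X → Nonempty (X ≅ Y) → P n X → P n Y
  total : ∀ (n : ℕ) {Z X U : Sch R} (i : Z ⟶ X) (j : U ⟶ X), FT False X → IsTriple i j →
    P n Z → P n U → P n X
  opened0 : ∀ {Z X U : Sch R} (i : Z ⟶ X) (j : U ⟶ X), FT False X → IsTriple i j → P 0 X → P 0 U
  opened : ∀ (n : ℕ) {Z X U : Sch R} (i : Z ⟶ X) (j : U ⟶ X), FT False X → IsTriple i j →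
    P (n + 1) X → P n Z → P (n + 1) U
  closed : ∀ (n : ℕ) {Z X U : Sch R} (i : Z ⟶ X) (j : U ⟶ X), FT False X → IsTriple i j →
    P n X → P (n + 1) U → P n Z
  base : ∀ n : ℕ, P n (aff R R)
  bundle : ∀ (n : ℕ) (A : Type) [CommRing A] [Algebra R A] [Algebra.FiniteType R A] (m : ℕ)
    (f : Fin m → A) (U : Sch R) (j : U ⟶ aff R A), IsOpenImmersion j.left →
    Set.range j.left = {x : PrimeSpectrum A | ∃ l, f l ∉ x.asIdeal} → (P n U ↔ P n (aff R (Jou f)))
  torus : ∀ (n : ℕ) (A : Type) [CommRing A] [Algebra R A] [Algebra.FiniteType R A],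
    P (n + 1) (aff R (LaurentPolynomial A)) → P n (aff R A)

/-- the property at the level `n` for all hypersurfaces in the affine space of dimension `m` -/
def HypP {R : Type} [CommRing R] (P : ℕ → Sch R → Prop) (n m : ℕ) : Prop :=
  ∀ f : MvPolynomial (Fin m) R, P n (aff R (MvPolynomial (Fin m) R ⧸ Ideal.span {f}))

/-- the property passes to open and closed subschemes of affine schemes, at the same level -/
def Summ {R : Type} [CommRing R] (P : ℕ → Sch R → Prop) : Prop :=
  ∀ (n : ℕ) (B : Type) [CommRing B] [Algebra R B] [Algebra.FiniteType R B] (e : B), IsIdempotentElem e →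
    P n (aff R B) → P n (aff R (B ⧸ Ideal.span {e}))

/-- EMP. The zero ring (see `p_empty` in `Z125/UN/Dim.lean`: `closed` for `w = 1` in `R`, `opened` not needed). -/
def S_EMP : Prop :=
  ∀ (R : Type) [CommRing R] (P : ℕ → Sch R → Prop), Lv P → ∀ (n : ℕ) (B : Type) [CommRing B]
    [Algebra R B], Subsingleton B → P n (aff R B)

/-- POL. Polynomial rings: `bundle` for `U = Spec A`, `f = (1, 0, …, 0)`, and `jouOne` (the polynomial ring is `Jou f`); see
`Pool/Agent/P8H48/DC/Pold.lean` and `p_poly_fin`. Also for every finite type of variables (`renameEquiv`). -/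
def S_POL : Prop :=
  ∀ (R : Type) [CommRing R] (P : ℕ → Sch R → Prop), Lv P → ∀ (n : ℕ) (A : Type) [CommRing A]
    [Algebra R A] [Algebra.FiniteType R A] (σ : Type) [Finite σ],
    (P n (aff R A) ↔ P n (aff R (MvPolynomial σ A)))

/-- NOE. Noetherian induction at one level: the proof of `noeth` in `Z125/UN/NI.lean` uses only `iso`, `total` and the
empty scheme (copy it; `ring_total`, `zero_div`, `quot_mk`, `quot_ideal` there have to be copied too where they take `Bnd`). -/
def S_NOE : Prop :=
  ∀ (R : Type) [CommRing R] [IsNoetherianRing R] (P : Sch R → Prop),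
    (∀ {X Y : Sch R}, FT False X → Nonempty (X ≅ Y) → P X → P Y) →
    (∀ {Z X U : Sch R} (i : Z ⟶ X) (j : U ⟶ X), FT False X → IsTriple i j → P Z → P U → P X) →
    (∀ (B : Type) [CommRing B] [Algebra R B], Subsingleton B → P (aff R B)) →
    ∀ (A : Type) [CommRing A] [Algebra R A] [Algebra.FiniteType R A],
    (∀ p : Ideal A, p.IsPrime → ∃ w : A ⧸ p, w ≠ 0 ∧ P (aff R (Localization.Away w))) →
    P (aff R A)

/-- CV2. The double cover at one level. Let `S = {a, b}`. The open subscheme `X_f ∖ V(f, h_a)` is `Spec A[s]`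
(`Pool.Agent.P8H48.DC.Opn.opn`), and the closed subscheme `V(f, h_a)` is `Spec (A / f)[t]` (`h_a = z - b`; give the
isomorphism of rings `Cov S f ⧸ span {cf S f, ch S f a} ≃ₐ[R] MvPolynomial (Fin 1) (A ⧸ span {f})`; see
`P8H44/DC/Cls.lean`, where the surjection `ψ` is constructed, and `P8H62/DC/Conv.lean`, `Aff.lean` (`lnE`)). Then
`closed` with `P (n + 1) A[s]` for one direction and `total` with `P n A[s]` for the other one, and `S_POL`. -/
def S_CV2 : Prop :=
  ∀ (R : Type) [CommRing R] (P : ℕ → Sch R → Prop), Lv P → ∀ (n : ℕ) (A : Type) [CommRing A]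
    [Algebra R A] [Algebra.FiniteType R A] (S : Finset R) (f : A), UnitDiff S → S.card = 2 →
    P n (aff R A) → P (n + 1) (aff R A) →
    (P n (aff R (A ⧸ Ideal.span {f})) ↔ P n (aff R (Cov S f)))

/-- CVS. The same for any `S` with at least two elements, if the property passes to open and closed subschemes: from
`P n X_f` and `P (n + 1) A[s]` by `closed` to `V(f, h_a)`, and to its open and closed part `Spec (A / f)[t]` by
`Summ` and `Pool.Agent.P8H44.DC.cls`. For the converse the parts `z = b` of `V(f, h_a)` one by one by `total`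
(as `p_lines` and `p_split` in `P8H62/DC/Conv.lean`). -/
def S_CVS : Prop :=
  ∀ (R : Type) [CommRing R] (P : ℕ → Sch R → Prop), Lv P → Summ P → ∀ (n : ℕ) (A : Type) [CommRing A]
    [Algebra R A] [Algebra.FiniteType R A] (S : Finset R) (f : A), UnitDiff S → 1 < S.card →
    P n (aff R A) → P (n + 1) (aff R A) →
    (P n (aff R (A ⧸ Ideal.span {f})) ↔ P n (aff R (Cov S f)))

/-- SHF. The first one: `R[x_1..x_(m+1)] / (f) = (R[x_1..x_m] / (f))[x_(m+1)]` and `S_POL`. The second one: apply
the hypothesis to `x_(m+1) f`; in `C = R[x, y] / (y f)` the closed subscheme `y = 0` is the affine space and the open one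
`y ≠ 0` is the spectrum of `(R[x] / f)[y, 1/y]`; `opened` (level `n + 1`: `P (n + 1) C`, `P n R[x]`), then `torus`. -/
def S_SHF : Prop :=
  ∀ (R : Type) [CommRing R] (P : ℕ → Sch R → Prop), Lv P → ∀ n m : ℕ,
    (HypP P n (m + 1) → HypP P n m) ∧ (HypP P (n + 1) (m + 1) → HypP P n m)

/-- INJ. By Noether normalization (`exists_integral_inj_algHom_of_fg`) and transcendence degrees, see the proof of
`exists_gens` in `Z125/UN/Emb.lean`: `L` is integral over `k[t_1..t_r]`, `r ≤ n` (`dim_le_of_integral`), and `N` algebraically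
independent elements of its fraction field give `N ≤ r`. -/
def S_INJ : Prop :=
  ∀ (k : Type) [Field k] (L : Type) [CommRing L] [IsDomain L] [Algebra k L] [Algebra.FiniteType k L]
    (N n : ℕ) (φ : MvPolynomial (Fin N) k →ₐ[k] L), Function.Injective φ → ringKrullDim L ≤ n → N ≤ n

/-- BIR. `B` a domain of dimension at most `d + 1` over a perfect field. By `exists_gens` and `exists_emb`
(`Z125/UN/Emb.lean`, see `closed_to_dim` and `p_emb` in `Z125/UN/Dim.lean`) there are `w ≠ 0` and
`φ : k[x_1..x_(d+2)] → L = B_w` with `L = (k[x] / ker φ)_g`, `φ g` a unit. `I = ker φ` is prime; it is not `0` by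
`S_INJ`, since `dim L ≤ d + 1` (`dim_away`). Let `f` be an irreducible element of `I` (`k[x]` is factorial). If `I = (f)` then `P n (k[x] / I)` by `HypP`. Otherwise
`dim k[x] / I < dim k[x] / (f) ≤ d + 1`
(`ringKrullDim_quotient_succ_le_of_nonZeroDivisor`) and `P n (k[x] / I)` by the second hypothesis. The closed
subscheme `g = 0` of the spectrum of `Q = k[x] / I` has dimension at most `d` (if `I ≠ 0`, `g ∉ I`), hence `P (n - 1)`
of it is true, and `P n L` by `opened` (or `opened0`). -/
def S_BIR : Prop :=
  S_INJ → ∀ (k : Type) [Field k] [PerfectField k] (P : ℕ → Sch k → Prop), Lv P → ∀ n d : ℕ,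
    HypP P n (d + 2) →
    (∀ (B : Type) [CommRing B] [Algebra k B] [Algebra.FiniteType k B], ringKrullDim B ≤ d → P n (aff k B)) →
    (∀ m : ℕ, n = m + 1 → ∀ (B : Type) [CommRing B] [Algebra k B] [Algebra.FiniteType k B],
      ringKrullDim B ≤ d → P m (aff k B)) →
    ∀ (B : Type) [CommRing B] [IsDomain B] [Algebra k B] [Algebra.FiniteType k B],
      ringKrullDim B ≤ (d + 1 : ℕ) → ∃ w : B, w ≠ 0 ∧ P n (aff k (Localization.Away w))

/-- The ring `A[w_1..w_r] / (h + ∑ w_i g_i)`. -/
abbrev Hh {A : Type} [CommRing A] (h : A) {r : ℕ} (g : Fin r → A) : Type :=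
  MvPolynomial (Fin r) A ⧸ Ideal.span {C h + ∑ i, X i * C (g i)}

/-- the functions `g` on it -/
noncomputable def gh {A : Type} [CommRing A] (h : A) {r : ℕ} (g : Fin r → A) (i : Fin r) : Hh h g :=
  Ideal.Quotient.mk _ (C (g i))

/-- PTI. The isomorphism of rings. Left: generators `s`, `w_i`, `y_i`, relations `h + ∑ w_i g_i = 0`, `∑ y_i g_i = 1`. Right:
generators `y_i`, `u_i`, relation `∑ y_i g_i = 1`. To the right: `s ↦ h + ∑ u_i g_i`, `w_i ↦ u_i - (h + ∑ u_j g_j) y_i`. To the
left: `u_i ↦ w_i + s y_i`. -/
def S_PTI : Prop :=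
  ∀ (A : Type) [CommRing A] (h : A) (r : ℕ) (g : Fin r → A),
    Nonempty (MvPolynomial (Fin 1) (Jou (gh h g)) ≃ₐ[A] MvPolynomial (Fin r) (Jou g))

/-- PTA. Let `X` be the spectrum of `Hh h g`, `Z` the closed subscheme `g = 0`: it is the spectrum of
`(A / (h, g))[w_1..w_r]`; `U` the open complement. By `bundle` for `Hh h g` and `gh h g`, `S_PTI` and `S_POL` (twice),
`P (n + 1) U ↔ P (n + 1) (Jou g)`, and by `bundle` for `A` and `g` this is `P (n + 1)` of the complement of `g = 0` in
`Spec A`, which follows by `opened` from `P (n + 1) A` and `P n (A / g)`. Now `closed`. -/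
def S_PTA : Prop :=
  ∀ (R : Type) [CommRing R] (P : ℕ → Sch R → Prop), Lv P → ∀ (n : ℕ) (A : Type) [CommRing A]
    [Algebra R A] [Algebra.FiniteType R A] (h : A) (r : ℕ) (g : Fin r → A), P (n + 1) (aff R A) →
    P n (aff R (A ⧸ Ideal.span (Set.range g))) → P n (aff R (Hh h g)) →
    P n (aff R (A ⧸ (Ideal.span {h} ⊔ Ideal.span (Set.range g))))

/-- PTB. From hypersurfaces in all affine spaces to all closed subschemes of affine spaces: induction on the number of
generators of the ideal by `S_PTA`, `S_PTI`, for `A = R[x_1..x_m]`; `Hh h g` is isomorphic to the ring of a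
hypersurface in the affine space of dimension `m + r` (`sumAlgEquiv`, `finSumFinEquiv`). -/
def S_PTB : Prop :=
  S_PTA → ∀ (R : Type) [CommRing R] [IsNoetherianRing R] (P : ℕ → Sch R → Prop), Lv P → S_POL → ∀ n : ℕ,
    (∀ m : ℕ, HypP P n m) → ∀ (m : ℕ) (I : Ideal (MvPolynomial (Fin m) R)),
    P n (aff R (MvPolynomial (Fin m) R ⧸ I))

/-- DBL. The scheme `Spec A` with doubled closed subscheme `V(I)`: the pushout of the open immersion
`Spec A ∖ V(I) → Spec A` with itself (`HasPushout` for open immersions is in Mathlib, `AlgebraicGeometry/Limits.lean`, or use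
`Scheme.GlueData`). `j1`, `j2` are the two copies; the composite of `Spec (A / I) → Spec A` with `j2` is a closed immersion
(check it on the open cover `j1`, `j2`: over `j1` the preimage is empty), with image the complement of `j1`. -/
def S_DBL : Prop :=
  ∀ (R : Type) [CommRing R] [IsNoetherianRing R] (A : Type) [CommRing A] [Algebra R A]
    [Algebra.FiniteType R A] (I : Ideal A), ∃ (X : Sch R) (j1 j2 : aff R A ⟶ X) (i : aff R (A ⧸ I) ⟶ X),
    FT False X ∧ IsTriple i j1 ∧ IsOpenImmersion j2.left ∧ Set.range j1.left ∪ Set.range j2.left = Set.univ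

/-- TWD. `X` is the union of two open affine spaces `U_1`, `U_2` of dimension `d + 1` over a field. The (reduced) closed
complement `Z` of `U_1` (`clo`, `cloMap` in `Y116/UV/Geo.lean`) is a closed subscheme of `U_2`, hence affine, of dimension at most
`d` (`dim_quot` in `Z125/UN/Emb.lean`) or isomorphic to the affine space `U_2` (a reduced closed subscheme of an affine space
is `Spec k[x] / I`; `I = 0` or `I ≠ 0`). Then `total`. -/
def S_TWD : Prop :=
  ∀ (k : Type) [Field k] (P : ℕ → Sch k → Prop), Lv P → S_POL → ∀ n d : ℕ,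
    (∀ (B : Type) [CommRing B] [Algebra k B] [Algebra.FiniteType k B], ringKrullDim B ≤ d → P n (aff k B)) →
    ∀ (X : Sch k) (j1 j2 : aff k (MvPolynomial (Fin (d + 1)) k) ⟶ X), FT False X → IsOpenImmersion j1.left →
    IsOpenImmersion j2.left → Set.range j1.left ∪ Set.range j2.left = Set.univ → P n X

/-- RGT. A scheme covered by two open subschemes `Spec C`, `C` regular, is regular
(`Pool.Agent.R904.CU.isRegularScheme_of_cover`, see `reg_union` in `P8H48/DC/Two.lean`), and smooth over `R` if `C` is. -/
def S_RGT : Prop :=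
  ∀ (R C : Type) [CommRing R] [CommRing C] [Algebra R C] (X : Sch R) (j1 j2 : aff R C ⟶ X),
    IsOpenImmersion j1.left → IsOpenImmersion j2.left → Set.range j1.left ∪ Set.range j2.left = Set.univ →
    (IsRegularRing C → IsRegularScheme X.left) ∧ (Algebra.Smooth R C → Smooth X.hom)

end Pool.Agent.P8H48.LV
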